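import Pool.Agent.H81.Tor6

set_option autoImplicit false

open Pool.Agent.H81.Tor

/-- Two simplicial 4-polytopes with 8 vertices whose boundary complexes have isomorphic bigraded
Tor-algebras (so equal bigraded Betti numbers) over every field, but different complex and different
real Buchstaber invariants. -/
theorem Pool.Agent.Results.MP_1dea36_gt.Neighborly.result :
    ∃ x y : Fin 8 → Fin 4 → ℝ, Simplicial x ∧ Simplicial y ∧
      (∀ (k : Type) [Field k], TorIso k (bd x) (bd y) ∧
        ∀ i j, betti k (bd x) i j = betti k (bd y) i j) ∧
      buch (bd x) < buch (bd y) ∧ buchR (bd x) < buchR (bd y) :=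
  ⟨_, _, main⟩
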